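import Pool.Agent.H73.BA.Targets

/-!
# Bands of symmetric operators: dimension counts and chains
-/

set_option autoImplicit false

namespace Pool.Agent.H27.BA

open Pool.Agent.H73.BA

theorem pf_T_SUR : T_SUR := by
  intro E _ _ _ V W ω hω hfr h v hv
  have hP : ∀ y ∈ W, (∀ w ∈ V, inner ℂ w (y - V.starProjection y) = 0) ∧
      ‖y - V.starProjection y‖ ≤ ω * ‖y‖ := by
    intro y hy
    obtain ⟨u, hu, h1, h2⟩ := h y hy
    have h3 : V.starProjection y = u := by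
      refine Submodule.eq_starProjection_of_mem_of_inner_eq_zero hu fun w hw => ?_
      rw [← inner_conj_symm, h1 w hw, map_zero]
    rw [h3]
    exact ⟨h1, h2⟩
  set T : W →ₗ[ℂ] V := (V.orthogonalProjectionOnto : E →ₗ[ℂ] V).comp W.subtype with hT
  have hTc : ∀ y : W, ((T y : V) : E) = V.starProjection (y : E) := fun y => rfl
  have hinj : Function.Injective T := by
    rw [← LinearMap.ker_eq_bot, LinearMap.ker_eq_bot']
    intro y hy
    have h1 := (hP y.1 y.2).2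
    rw [← hTc y, hy] at h1
    have h2 : ‖(y : E)‖ ≤ ω * ‖(y : E)‖ := by simpa using h1
    have h3 : ‖(y : E)‖ = 0 := by nlinarith [norm_nonneg (y : E)]
    exact Subtype.ext (norm_eq_zero.1 h3)
  have hle : Module.finrank ℂ W ≤ Module.finrank ℂ V :=
    LinearMap.finrank_le_finrank_of_injective hinj
  have hsurj : Function.Surjective T :=
    (LinearMap.injective_iff_surjective_of_finrank_eq_finrank (le_antisymm hle hfr)).1 hinj
  obtain ⟨y, hy⟩ := hsurj ⟨v, hv⟩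
  have h1 : V.starProjection (y : E) = v := by
    rw [← hTc y, hy]
  have h2 := (hP y.1 y.2).2
  rw [h1] at h2
  refine ⟨y, y.2, ?_, h2⟩
  have h3 : ‖(y : E)‖ ≤ ‖(y : E) - v‖ + ‖v‖ := by
    have := norm_add_le ((y : E) - v) v
    simpa using this
  nlinarith [norm_nonneg (y : E)]

theorem pf_T_ORT : T_ORT := by
  intro E _ _ _ V W hlt
  rw [not_le] at hlt
  set T : V →ₗ[ℂ] W := (W.orthogonalProjectionOnto : E →ₗ[ℂ] W).comp V.subtype with hT
  have hTc : ∀ y : V, ((T y : W) : E) = W.starProjection (y : E) := fun y => rfl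
  have hker := LinearMap.ker_ne_bot_of_finrank_lt (f := T) hlt
  obtain ⟨x, hx, hx0⟩ := Submodule.exists_mem_ne_zero_of_ne_bot hker
  have hTx : W.starProjection (x : E) = 0 := by
    rw [← hTc x, LinearMap.mem_ker.1 hx]
    rfl
  have hxE : (x : E) ≠ 0 := fun h => hx0 (Subtype.ext h)
  have hn : ‖(x : E)‖ ≠ 0 := norm_ne_zero_iff.2 hxE
  refine ⟨((‖(x : E)‖⁻¹ : ℝ) : ℂ) • (x : E), V.smul_mem _ x.2, ?_, fun w hw => ?_⟩
  · rw [norm_smul, Complex.norm_real, norm_inv, norm_norm, inv_mul_cancel₀ hn]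
  · have h1 : inner ℂ w ((x : E) - W.starProjection (x : E)) = 0 := by
      rw [← inner_conj_symm, Submodule.starProjection_inner_eq_zero (x : E) w hw, map_zero]
    rw [hTx, sub_zero] at h1
    rw [inner_smul_right, h1, mul_zero]

theorem pf_T_JMP : T_JMP := by
  intro E _ _ H H' hH e ρ d ν V q v hρ hρd hν hinv hnear hq hv h0 hrec hdif y hy
  have hd : 0 < d := by linarith
  have hdρ : 0 < d - ρ := by linarith
  -- one step
  have step : ∀ (y : E), y ∈ V → ∀ (u w : E), H' w - (e : ℂ) • w = (d : ℂ) • u →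
      ‖H' w - H w‖ ≤ ν → ∀ a : ℝ, 0 ≤ a → (∀ z ∈ V, ‖(inner ℂ z w : ℂ)‖ ≤ a * ‖z‖) →
      d * ‖(inner ℂ y u : ℂ)‖ ≤ (a * ρ + ν) * ‖y‖ := by
    intro y hy u w hw hdw a ha hz
    have h1 : (d : ℂ) * inner ℂ y u = inner ℂ (H y - (e : ℂ) • y) w + inner ℂ y (H' w - H w) := by
      rw [← inner_smul_right, ← hw, inner_sub_right, inner_sub_right, inner_sub_left,
        inner_smul_right, inner_smul_left, hH y w, Complex.conj_ofReal]
      ring
    have h2 : H y - (e : ℂ) • y ∈ V := V.sub_mem (hinv y hy) (V.smul_mem _ hy)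
    have h3 : d * ‖(inner ℂ y u : ℂ)‖ = ‖(d : ℂ) * inner ℂ y u‖ := by
      rw [norm_mul, Complex.norm_real, Real.norm_eq_abs, abs_of_pos hd]
    rw [h3, h1]
    refine (norm_add_le _ _).trans ?_
    have h4 : ‖(inner ℂ (H y - (e : ℂ) • y) w : ℂ)‖ ≤ a * (ρ * ‖y‖) :=
      (hz _ h2).trans (mul_le_mul_of_nonneg_left (hnear y hy) ha)
    have h5 : ‖(inner ℂ y (H' w - H w) : ℂ)‖ ≤ ‖y‖ * ν :=
      (norm_inner_le_norm _ _).trans (mul_le_mul_of_nonneg_left hdw (norm_nonneg _))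
    linarith
  have key : ∀ (k : ℕ) (i : ℕ), ∀ z ∈ V, ‖(inner ℂ z (v i) : ℂ)‖ ≤
      (ν / (d - ρ) + (ρ / d) ^ k) * ‖z‖ := by
    intro k
    induction k with
    | zero =>
      intro i z hz
      rw [pow_zero]
      have h1 : ‖(inner ℂ z (v i) : ℂ)‖ ≤ ‖z‖ * 1 :=
        (norm_inner_le_norm _ _).trans (mul_le_mul_of_nonneg_left (hv i) (norm_nonneg _))
      have h2 : 0 ≤ ν / (d - ρ) := by positivity
      have h3 : 0 ≤ ν / (d - ρ) * ‖z‖ := mul_nonneg h2 (norm_nonneg _)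
      linarith
    | succ k ih =>
      intro i z hz
      have h1 := step z hz (v i) (v (i + 1)) (hrec i) (hdif (i + 1))
        (ν / (d - ρ) + (ρ / d) ^ k) (by positivity) (ih (i + 1))
      have h2 : (ν / (d - ρ) + (ρ / d) ^ k) * ρ + ν =
          d * (ν / (d - ρ) + (ρ / d) ^ (k + 1)) := by
        rw [pow_succ]
        field_simp
        ring
      rw [h2, mul_assoc] at h1
      exact le_of_mul_le_mul_left h1 hd
  have lim : ∀ z ∈ V, ‖(inner ℂ z (v 0) : ℂ)‖ ≤ (ν / (d - ρ)) * ‖z‖ := by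
    intro z hz
    have h1 : Filter.Tendsto (fun k : ℕ => (ν / (d - ρ) + (ρ / d) ^ k) * ‖z‖) Filter.atTop
        (nhds ((ν / (d - ρ) + 0) * ‖z‖)) := by
      refine Filter.Tendsto.mul_const _ (Filter.Tendsto.const_add _ ?_)
      exact tendsto_pow_atTop_nhds_zero_of_lt_one (by positivity) ((div_lt_one hd).2 hρd)
    rw [add_zero] at h1
    exact ge_of_tendsto' h1 fun k => key k 0 z hz
  have h1 := step y hy q (v 0) h0 (hdif 0) (ν / (d - ρ)) (by positivity) lim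
  have h2 : ν / (d - ρ) * ρ + ν = d * (ν / (d - ρ)) := by
    field_simp
    ring
  rw [h2, mul_assoc] at h1
  have h3 := le_of_mul_le_mul_left h1 hd
  calc (d - ρ) * ‖(inner ℂ y q : ℂ)‖ ≤ (d - ρ) * (ν / (d - ρ) * ‖y‖) :=
        mul_le_mul_of_nonneg_left h3 hdρ.le
    _ = ν * ‖y‖ := by field_simp

theorem pf_T_CHW : T_CHW := by
  intro E _ _ H e d W hd hS y hy hy1
  have hdc : (d : ℂ) ≠ 0 := by exact_mod_cast hd.ne'
  set f : W → W := fun z => ⟨((d : ℂ)⁻¹) • (H z - (e : ℂ) • (z : E)),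
    W.smul_mem _ (W.sub_mem (hS.inv z z.2) (W.smul_mem _ z.2))⟩ with hf
  have hfn : ∀ z : W, ‖((f z : W) : E)‖ ≤ ‖(z : E)‖ := by
    intro z
    rw [hf]
    simp only
    rw [norm_smul, norm_inv, Complex.norm_real, Real.norm_eq_abs, abs_of_pos hd]
    have h1 := hS.near z z.2
    calc d⁻¹ * ‖H z - (e : ℂ) • (z : E)‖ ≤ d⁻¹ * (d * ‖(z : E)‖) :=
          mul_le_mul_of_nonneg_left h1 (by positivity)
      _ = ‖(z : E)‖ := by field_simp
  have hb : ∀ i : ℕ, ‖((f^[i] ⟨y, hy⟩ : W) : E)‖ ≤ 1 := by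
    intro i
    induction i with
    | zero => simpa using hy1
    | succ k ih =>
      rw [Function.iterate_succ_apply']
      exact (hfn _).trans ih
  refine ⟨fun i => ((f^[i] ⟨y, hy⟩ : W) : E), rfl, hb, fun i => ?_⟩
  · beta_reduce
    rw [Function.iterate_succ_apply']
    change _ = (d : ℂ) • ((d : ℂ)⁻¹ • (H ((f^[i] ⟨y, hy⟩ : W) : E) -
      (e : ℂ) • ((f^[i] ⟨y, hy⟩ : W) : E)))
    rw [smul_smul, mul_inv_cancel₀ hdc, one_smul]

end Pool.Agent.H27.BA
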